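import Pool.Agent.K1H81.PS.Stm

/-!
# Piece `S_MUL`: the classes of the p-adic points form a group
-/

set_option autoImplicit false

namespace Pool.Agent.K1H45.PS

open Filter Topology Pool.Agent.K1H81.PS

section field

variable {K : Type} [Field K]

lemma line_id {x1 y1 x2 y2 m n e1 e2 e3 X x3 : K} (hx : x1 ≠ x2)
    (hm1 : m * x1 + n = y1) (hm2 : m * x2 + n = y2)
    (h1 : y1 ^ 2 = (x1 - e1) * (x1 - e2) * (x1 - e3))
    (h2 : y2 ^ 2 = (x2 - e1) * (x2 - e2) * (x2 - e3))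
    (h3 : x3 = m ^ 2 + e1 + e2 + e3 - x1 - x2) :
    (X - e1) * (X - e2) * (X - e3) - (m * X + n) ^ 2 = (X - x1) * (X - x2) * (X - x3) := by
  have hd : x1 - x2 ≠ 0 := sub_ne_zero.mpr hx
  apply mul_left_cancel₀ hd
  subst h3
  rw [← hm1] at h1
  rw [← hm2] at h2
  linear_combination (X - x2) * (-h1) + (X - x1) * h2

/-- the third coordinate factor -/
lemma third {x1 y1 x2 y2 m n e1 e2 e3 x3 : K} (hx : x1 ≠ x2)
    (hm1 : m * x1 + n = y1) (hm2 : m * x2 + n = y2)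
    (h1 : y1 ^ 2 = (x1 - e1) * (x1 - e2) * (x1 - e3))
    (h2 : y2 ^ 2 = (x2 - e1) * (x2 - e2) * (x2 - e3))
    (h3 : x3 = m ^ 2 + e1 + e2 + e3 - x1 - x2) :
    (m * e1 + n) ^ 2 = (x1 - e1) * (x2 - e1) * (x3 - e1) ∧
    (m * e2 + n) ^ 2 = (x1 - e2) * (x2 - e2) * (x3 - e2) ∧
    (m * e3 + n) ^ 2 = (x1 - e3) * (x2 - e3) * (x3 - e3) ∧
    (m * x3 + n) ^ 2 = (x3 - e1) * (x3 - e2) * (x3 - e3) := by
  refine ⟨?_, ?_, ?_, ?_⟩
  · linear_combination -line_id (X := e1) hx hm1 hm2 h1 h2 h3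
  · linear_combination -line_id (X := e2) hx hm1 hm2 h1 h2 h3
  · linear_combination -line_id (X := e3) hx hm1 hm2 h1 h2 h3
  · linear_combination -line_id (X := x3) hx hm1 hm2 h1 h2 h3

lemma sq_class {a b c u v t : K} (ha : a ≠ 0) (hb : b ≠ 0) (h : t ^ 2 = a * b * c)
    (hu : IsSquare (a * u)) (hv : IsSquare (b * v)) : IsSquare (c * (u * v)) := by
  obtain ⟨r, hr⟩ := hu
  obtain ⟨s, hs⟩ := hv
  refine ⟨t * r * s / (a * b), ?_⟩
  have : c * (u * v) = t ^ 2 * (a * u) * (b * v) / (a * b) ^ 2 := by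
    rw [h]; field_simp
  rw [this, hr, hs]
  field_simp

/-- adding two points in general position -/
lemma chord {e1 e2 e3 u1 u2 u3 v1 v2 v3 x1 y1 x2 y2 : K} (hx : x1 ≠ x2)
    (hy1 : y1 ≠ 0) (hy2 : y2 ≠ 0)
    (h1 : y1 ^ 2 = (x1 - e1) * (x1 - e2) * (x1 - e3))
    (h2 : y2 ^ 2 = (x2 - e1) * (x2 - e2) * (x2 - e3))
    (hu1 : IsSquare ((x1 - e1) * u1)) (hu2 : IsSquare ((x1 - e2) * u2))
    (hu3 : IsSquare ((x1 - e3) * u3))
    (hv1 : IsSquare ((x2 - e1) * v1)) (hv2 : IsSquare ((x2 - e2) * v2))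
    (hv3 : IsSquare ((x2 - e3) * v3))
    (g1 : (x1 - e2) * (x1 - e3) * (x2 - e1) ≠ (x2 - e2) * (x2 - e3) * (x1 - e1))
    (g2 : (x1 - e1) * (x1 - e3) * (x2 - e2) ≠ (x2 - e1) * (x2 - e3) * (x1 - e2))
    (g3 : (x1 - e1) * (x1 - e2) * (x2 - e3) ≠ (x2 - e1) * (x2 - e2) * (x1 - e3)) :
    Lk K e1 e2 e3 (u1 * v1) (u2 * v2) (u3 * v3) := by
  have hd : x1 - x2 ≠ 0 := sub_ne_zero.mpr hx
  obtain ⟨m, hm⟩ : ∃ m, m * (x1 - x2) = y1 - y2 := ⟨(y1 - y2) / (x1 - x2), by field_simp⟩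
  obtain ⟨n, hn⟩ : ∃ n, n = y1 - m * x1 := ⟨_, rfl⟩
  have hm1 : m * x1 + n = y1 := by rw [hn]; ring
  have hm2 : m * x2 + n = y2 := by rw [hn]; linear_combination -hm
  obtain ⟨x3, h3⟩ : ∃ x3, x3 = m ^ 2 + e1 + e2 + e3 - x1 - x2 := ⟨_, rfl⟩
  obtain ⟨t1, t2, t3, t4⟩ := third hx hm1 hm2 h1 h2 h3
  have n1 : y1 ^ 2 ≠ 0 := pow_ne_zero 2 hy1
  have n2 : y2 ^ 2 ≠ 0 := pow_ne_zero 2 hy2
  rw [h1] at n1
  rw [h2] at n2
  have a1 : x1 - e1 ≠ 0 := fun h => n1 (by rw [h]; ring)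
  have a2 : x1 - e2 ≠ 0 := fun h => n1 (by rw [h]; ring)
  have a3 : x1 - e3 ≠ 0 := fun h => n1 (by rw [h]; ring)
  have b1 : x2 - e1 ≠ 0 := fun h => n2 (by rw [h]; ring)
  have b2 : x2 - e2 ≠ 0 := fun h => n2 (by rw [h]; ring)
  have b3 : x2 - e3 ≠ 0 := fun h => n2 (by rw [h]; ring)
  -- the line does not pass through a point of order two
  have key : ∀ e : K, m * e + n = 0 → y1 ^ 2 * (x2 - e) ^ 2 = y2 ^ 2 * (x1 - e) ^ 2 := by
    intro e he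
    have e1 : y1 = m * (x1 - e) := by rw [← hm1]; linear_combination he
    have e2 : y2 = m * (x2 - e) := by rw [← hm2]; linear_combination he
    rw [e1, e2]; ring
  have c1 : x3 - e1 ≠ 0 := by
    intro h
    rw [h, mul_zero] at t1
    have hk := key e1 (pow_eq_zero_iff (two_ne_zero) |>.mp t1)
    rw [h1, h2] at hk
    apply g1
    have : (x1 - e1) * (x2 - e1) ≠ 0 := mul_ne_zero a1 b1
    apply mul_left_cancel₀ this
    linear_combination hk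
  have c2 : x3 - e2 ≠ 0 := by
    intro h
    rw [h, mul_zero] at t2
    have hk := key e2 (pow_eq_zero_iff (two_ne_zero) |>.mp t2)
    rw [h1, h2] at hk
    apply g2
    have : (x1 - e2) * (x2 - e2) ≠ 0 := mul_ne_zero a2 b2
    apply mul_left_cancel₀ this
    linear_combination hk
  have c3 : x3 - e3 ≠ 0 := by
    intro h
    rw [h, mul_zero] at t3
    have hk := key e3 (pow_eq_zero_iff (two_ne_zero) |>.mp t3)
    rw [h1, h2] at hk
    apply g3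
    have : (x1 - e3) * (x2 - e3) ≠ 0 := mul_ne_zero a3 b3
    apply mul_left_cancel₀ this
    linear_combination hk
  refine ⟨x3, m * x3 + n, ?_, t4, sq_class a1 b1 t1 hu1 hv1, sq_class a2 b2 t2 hu2 hv2,
    sq_class a3 b3 t3 hu3 hv3⟩
  intro h
  rw [h] at t4
  have : (x3 - e1) * (x3 - e2) * (x3 - e3) ≠ 0 := mul_ne_zero (mul_ne_zero c1 c2) c3
  apply this
  rw [← t4]; ring

lemma IsSquare.transfer {a b u : K} (ha : a ≠ 0) (hab : IsSquare (b / a)) (h : IsSquare (a * u)) :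
    IsSquare (b * u) := by
  have : b * u = (b / a) * (a * u) := by field_simp
  rw [this]
  exact hab.mul h

end field

section padic

variable {p : ℕ} [hp : Fact p.Prime]

lemma eventually_sq_one : ∀ᶠ z in 𝓝 (1 : ℚ_[p]), IsSquare z := by
  have h1 : HasStrictDerivAt (fun x : ℚ_[p] => x ^ 2) ((2 : ℕ) * (1 : ℚ_[p]) ^ (2 - 1)) 1 :=
    hasStrictDerivAt_pow 2 1
  have h2 : ((2 : ℕ) : ℚ_[p]) * (1 : ℚ_[p]) ^ (2 - 1) ≠ 0 := by
    rw [one_pow, mul_one]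
    exact Nat.cast_ne_zero.mpr two_ne_zero
  have h3 := h1.map_nhds_eq h2
  rw [one_pow] at h3
  rw [← h3, eventually_map]
  exact Eventually.of_forall (fun x => ⟨x, by ring⟩)

lemma eventually_sq (x0 e : ℚ_[p]) (h : x0 - e ≠ 0) :
    ∀ᶠ x in 𝓝 x0, IsSquare ((x - e) / (x0 - e)) := by
  have hc : Tendsto (fun x : ℚ_[p] => (x - e) / (x0 - e)) (𝓝 x0) (𝓝 1) := by
    have : ContinuousAt (fun x : ℚ_[p] => (x - e) / (x0 - e)) x0 := by fun_prop
    have h2 := this.tendsto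
    simpa [div_self h] using h2
  exact hc.eventually eventually_sq_one

open Polynomial in
theorem t_MUL : S_MUL := by
  intro p _ e1 e2 e3 u1 u2 u3 v1 v2 v3 h12 h13 h23 ⟨x1, y1, hy1, h1, hu1, hu2, hu3⟩
    ⟨x2, y2, hy2, h2, hv1, hv2, hv3⟩
  have n1 : y1 ^ 2 ≠ 0 := pow_ne_zero 2 hy1
  have n2 : y2 ^ 2 ≠ 0 := pow_ne_zero 2 hy2
  rw [h1] at n1
  rw [h2] at n2
  have a1 : x1 - e1 ≠ 0 := fun h => n1 (by rw [h]; ring)
  have a2 : x1 - e2 ≠ 0 := fun h => n1 (by rw [h]; ring)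
  have a3 : x1 - e3 ≠ 0 := fun h => n1 (by rw [h]; ring)
  have b1 : x2 - e1 ≠ 0 := fun h => n2 (by rw [h]; ring)
  have b2 : x2 - e2 ≠ 0 := fun h => n2 (by rw [h]; ring)
  have b3 : x2 - e3 ≠ 0 := fun h => n2 (by rw [h]; ring)
  have d12 : e1 - e2 ≠ 0 := sub_ne_zero.mpr h12
  have d13 : e1 - e3 ≠ 0 := sub_ne_zero.mpr h13
  have d23 : e2 - e3 ≠ 0 := sub_ne_zero.mpr h23
  -- the exceptional polynomials
  let P1 : ℚ_[p][X] := (X - C e2) * (X - C e3) * C (x2 - e1) - C ((x2 - e2) * (x2 - e3)) * (X - C e1)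
  let P2 : ℚ_[p][X] := (X - C e1) * (X - C e3) * C (x2 - e2) - C ((x2 - e1) * (x2 - e3)) * (X - C e2)
  let P3 : ℚ_[p][X] := (X - C e1) * (X - C e2) * C (x2 - e3) - C ((x2 - e1) * (x2 - e2)) * (X - C e3)
  have hP1 : P1 ≠ 0 := by
    intro h
    have := congrArg (Polynomial.eval e1) h
    simp only [P1, eval_sub, eval_mul, eval_X, eval_C, eval_zero, sub_self, mul_zero,
      sub_zero] at this
    exact mul_ne_zero (mul_ne_zero d12 d13) b1 this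
  have hP2 : P2 ≠ 0 := by
    intro h
    have := congrArg (Polynomial.eval e2) h
    simp only [P2, eval_sub, eval_mul, eval_X, eval_C, eval_zero, sub_self, mul_zero,
      sub_zero] at this
    exact mul_ne_zero (mul_ne_zero (sub_ne_zero.mpr h12.symm) d23) b2 this
  have hP3 : P3 ≠ 0 := by
    intro h
    have := congrArg (Polynomial.eval e3) h
    simp only [P3, eval_sub, eval_mul, eval_X, eval_C, eval_zero, sub_self, mul_zero,
      sub_zero] at this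
    exact mul_ne_zero (mul_ne_zero (sub_ne_zero.mpr h13.symm) (sub_ne_zero.mpr h23.symm)) b3 this
  have hP4 : (X - C x2 : ℚ_[p][X]) ≠ 0 := X_sub_C_ne_zero x2
  have hP5 : ((X - C e1) * (X - C e2) * (X - C e3) : ℚ_[p][X]) ≠ 0 :=
    mul_ne_zero (mul_ne_zero (X_sub_C_ne_zero e1) (X_sub_C_ne_zero e2)) (X_sub_C_ne_zero e3)
  have hQ : P1 * P2 * P3 * (X - C x2) * ((X - C e1) * (X - C e2) * (X - C e3)) ≠ 0 :=
    mul_ne_zero (mul_ne_zero (mul_ne_zero (mul_ne_zero hP1 hP2) hP3) hP4) hP5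
  have hfin : {x : ℚ_[p] | (P1 * P2 * P3 * (X - C x2) *
      ((X - C e1) * (X - C e2) * (X - C e3))).IsRoot x}.Finite :=
    Polynomial.finite_setOfPred_isRoot hQ
  have hev : ∀ᶠ x in 𝓝 x1, IsSquare ((x - e1) / (x1 - e1)) ∧ IsSquare ((x - e2) / (x1 - e2)) ∧
      IsSquare ((x - e3) / (x1 - e3)) :=
    (eventually_sq x1 e1 a1).and ((eventually_sq x1 e2 a2).and (eventually_sq x1 e3 a3))
  obtain ⟨x, hx, hxr⟩ := (infinite_of_mem_nhds x1 hev).exists_notMem_finite hfin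
  obtain ⟨s1, s2, s3⟩ := hx
  simp only [Set.mem_ofPred_eq, IsRoot.def, eval_mul, eval_sub, eval_X, eval_C, mul_eq_zero,
    not_or, P1, P2, P3] at hxr
  obtain ⟨⟨⟨⟨g1, g2⟩, g3⟩, g4⟩, ⟨g5, g6⟩, g7⟩ := hxr
  -- the new point
  have hsq : IsSquare ((x - e1) * (x - e2) * (x - e3)) := by
    have : (x - e1) * (x - e2) * (x - e3) = ((x - e1) / (x1 - e1)) * ((x - e2) / (x1 - e2)) *
        ((x - e3) / (x1 - e3)) * y1 ^ 2 := by
      rw [h1]; field_simp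
    rw [this]
    exact ((s1.mul s2).mul s3).mul ⟨y1, by ring⟩
  obtain ⟨y, hy⟩ := hsq
  have hy0 : y ≠ 0 := by
    rintro rfl
    rw [mul_zero] at hy
    exact mul_ne_zero (mul_ne_zero g5 g6) g7 hy
  refine chord (x1 := x) (y1 := y) (x2 := x2) (y2 := y2) (sub_ne_zero.mp g4) hy0 hy2
    (by rw [hy]; ring) h2 (IsSquare.transfer a1 s1 hu1) (IsSquare.transfer a2 s2 hu2)
    (IsSquare.transfer a3 s3 hu3) hv1 hv2 hv3 ?_ ?_ ?_
  · exact sub_ne_zero.mp g1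
  · exact sub_ne_zero.mp g2
  · exact sub_ne_zero.mp g3

end padic

end Pool.Agent.K1H45.PS
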