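import Pool.Agent.K1H81.PS.Stm

/-!
# Piece `S_ODDN`: necessity of the local condition at an odd prime
-/

set_option autoImplicit false

namespace Pool.Agent.K1H45.PS

open Pool.Agent.K1H81.PS

section padic

variable {p : ℕ} [hp : Fact p.Prime]

lemma one_add_sq (hp2 : p ≠ 2) (r : ℚ_[p]) (hr : ‖r‖ < 1) : IsSquare (1 + r) := by
  let r' : ℤ_[p] := ⟨r, hr.le⟩
  let F : Polynomial ℤ_[p] := Polynomial.X ^ 2 - Polynomial.C (1 + r')
  have hr' : ‖r'‖ < 1 := hr
  have h1 : F.aeval (1 : ℤ_[p]) = -r' := by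
    simp [F]
  have h2 : F.derivative.aeval (1 : ℤ_[p]) = 2 := by
    simp [F, one_add_one_eq_two]
  have h3 : ‖(2 : ℤ_[p])‖ = 1 := by
    have h4 : ¬ (p : ℤ) ∣ 2 := by
      intro h
      have h5 : p ∣ 2 := by exact_mod_cast h
      exact hp2 ((Nat.prime_dvd_prime_iff_eq hp.out Nat.prime_two).1 h5)
    have h5 : ¬ ‖((2 : ℤ) : ℚ_[p])‖ < 1 := by
      rw [Padic.norm_intCast_lt_one_iff]
      exact h4
    have h6 : ‖(2 : ℤ_[p])‖ = ‖((2 : ℤ) : ℚ_[p])‖ := by
      rw [PadicInt.norm_def]
      norm_cast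
    have h7 := PadicInt.norm_le_one (2 : ℤ_[p])
    rw [h6] at h7 ⊢
    exact le_antisymm h7 (not_lt.1 h5)
  obtain ⟨z, hz, -⟩ := hensels_lemma (p := p) (R := ℤ_[p]) (F := F) (a := 1) (by
    rw [h1, h2, h3, norm_neg]
    simpa using hr')
  have h8 : z ^ 2 = 1 + r' := by
    simpa [F, sub_eq_zero] using hz
  refine ⟨(z : ℚ_[p]), ?_⟩
  have h9 := congrArg (fun t : ℤ_[p] => (t : ℚ_[p])) h8
  simp only [PadicInt.coe_pow, PadicInt.coe_add, PadicInt.coe_one] at h9
  rw [← pow_two, h9]

/-- `a (1 + small)` has the class of `a` -/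
lemma add_small_div (hp2 : p ≠ 2) {a b : ℚ_[p]} (ha : a ≠ 0) (h : ‖b‖ < ‖a‖) :
    IsSquare ((a + b) / a) := by
  have h1 : (a + b) / a = 1 + b / a := by field_simp
  rw [h1]
  apply one_add_sq hp2
  rw [norm_div]
  exact (div_lt_one (norm_pos_iff.mpr ha)).mpr h

lemma val_even {z : ℚ_[p]} (hz : z ≠ 0) (h : IsSquare z) : Even z.valuation := by
  obtain ⟨w, rfl⟩ := h
  have hw : w ≠ 0 := fun h => hz (by rw [h, mul_zero])
  rw [Padic.valuation_mul hw hw]
  exact ⟨_, rfl⟩

lemma sqf_val {d : ℤ} (hd : Squarefree d) : (p : ℤ) ∣ d ↔ ¬ Even (d : ℚ_[p]).valuation := by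
  rw [Padic.valuation_intCast]
  have hd0 : d ≠ 0 := hd.ne_zero
  have hle : padicValInt p d ≤ 1 := by
    by_contra hcon
    push Not at hcon
    have h1 : ((p : ℤ) ^ 2) ∣ d := by
      have h2 : ((p : ℤ) ^ (padicValInt p d)) ∣ d := padicValInt_dvd d
      exact (pow_dvd_pow _ hcon).trans h2
    rw [pow_two] at h1
    have := hd _ h1
    rw [Int.isUnit_iff] at this
    have h3 := hp.out.two_le
    omega
  have hiff : (p : ℤ) ∣ d ↔ 1 ≤ padicValInt p d := by
    constructor
    · intro h
      have := (padicValInt_dvd_iff 1 d).mp (by simpa using h)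
      rcases this with h1 | h1
      · exact absurd h1 hd0
      · exact h1
    · intro h
      have := (padicValInt_dvd_iff 1 d).mpr (Or.inr h)
      simpa using this
  rw [hiff]
  constructor
  · intro h
    have h1 : padicValInt p d = 1 := le_antisymm hle h
    rw [h1]; decide
  · intro h
    by_contra hcon
    apply h
    have h1 : padicValInt p d = 0 := by omega
    rw [h1]; decide

/-- an integer prime to `p` which is a square in `ℚ_p` is a quadratic residue -/
lemma jac_of_sq {n : ℤ} (hn : ¬ (p : ℤ) ∣ n) (h : IsSquare (n : ℚ_[p])) : jacobiSym n p = 1 := by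
  obtain ⟨z, hz⟩ := h
  have h1 : ‖(n : ℚ_[p])‖ = 1 := by
    have h2 := Padic.norm_int_le_one (p := p) n
    have h3 : ¬ ‖(n : ℚ_[p])‖ < 1 := by
      rw [Padic.norm_intCast_lt_one_iff]; exact hn
    exact le_antisymm h2 (not_lt.mp h3)
  have h2 : ‖z‖ ≤ 1 := by
    rw [hz, norm_mul] at h1
    nlinarith [norm_nonneg z]
  let w : ℤ_[p] := ⟨z, h2⟩
  have h3 : (n : ℤ_[p]) = w * w := by
    apply Subtype.ext
    push_cast
    exact hz
  have h4 : (n : ZMod p) = PadicInt.toZMod w * PadicInt.toZMod w := by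
    rw [← map_mul, ← h3, map_intCast]
  rw [← jacobiSym.legendreSym.to_jacobiSym]
  rw [legendreSym.eq_one_iff]
  · exact ⟨_, h4⟩
  · intro h5
    exact hn ((ZMod.intCast_zmod_eq_zero_iff_dvd n p).mp h5)

end padic

section alg

variable {K : Type} [Field K]

lemma sq_cancel {a b : K} (hb : b ≠ 0) (hbs : IsSquare b) (h : IsSquare (a * b)) : IsSquare a := by
  have : a = (a * b) / b := by field_simp
  rw [this]
  exact h.div hbs

lemma sq_swap {a b u : K} (ha : a ≠ 0) (hb : b ≠ 0) (hab : IsSquare (b / a))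
    (h : IsSquare (b * u)) : IsSquare (a * u) := by
  have : a * u = (b * u) / (b / a) := by field_simp
  rw [this]
  exact h.div hab

end alg

lemma val_eq_of_norm_eq {p : ℕ} [hp : Fact p.Prime] {a b : ℚ_[p]} (ha : a ≠ 0) (hb : b ≠ 0)
    (h : ‖a‖ = ‖b‖) : a.valuation = b.valuation := by
  rw [Padic.norm_eq_zpow_neg_valuation ha, Padic.norm_eq_zpow_neg_valuation hb] at h
  have h1 : (1 : ℝ) < p := by exact_mod_cast hp.out.one_lt
  have h2 := zpow_right_injective₀ (by linarith) (by linarith : (p : ℝ) ≠ 1) h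
  linarith

lemma val_zero_of_norm_one {p : ℕ} [hp : Fact p.Prime] {a : ℚ_[p]}
    (h : ‖a‖ = 1) : a.valuation = 0 := by
  have ha : a ≠ 0 := by
    rintro rfl
    simp at h
  have h1 := val_eq_of_norm_eq ha (one_ne_zero) (by rw [h, norm_one])
  rw [h1]; simp

/-- **ODDN** -/
theorem t_ODDN : S_ODDN := by
  intro p _ e1 e2 e3 d1 d2 d3 hp2 h12 hpa hpb ⟨s1, s2, s3, k, hk⟩ ⟨x, y, hy, hxy, q1, q2, q3⟩
  have hd1 : (d1 : ℚ_[p]) ≠ 0 := by exact_mod_cast s1.ne_zero
  have hd3 : (d3 : ℚ_[p]) ≠ 0 := by exact_mod_cast s3.ne_zero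
  obtain ⟨A, hA⟩ : ∃ A : ℚ_[p], A = x - e1 := ⟨_, rfl⟩
  obtain ⟨a, ha⟩ : ∃ a : ℚ_[p], a = ((e1 - e2 : ℤ) : ℚ_[p]) := ⟨_, rfl⟩
  obtain ⟨b, hb⟩ : ∃ b : ℚ_[p], b = ((e1 - e3 : ℤ) : ℚ_[p]) := ⟨_, rfl⟩
  have eB : x - e2 = A + a := by rw [hA, ha]; push_cast; ring
  have eC : x - e3 = A + b := by rw [hA, hb]; push_cast; ring
  rw [eB] at q2
  rw [eC] at q3
  rw [← hA] at q1
  rw [eB, eC, ← hA] at hxy
  have hy2 : y ^ 2 ≠ 0 := pow_ne_zero 2 hy
  have hA0 : A ≠ 0 := fun h => hy2 (by rw [hxy, h]; ring)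
  have hB0 : A + a ≠ 0 := fun h => hy2 (by rw [hxy, h]; ring)
  have hC0 : A + b ≠ 0 := fun h => hy2 (by rw [hxy, h]; ring)
  have na : ‖a‖ < 1 := by rw [ha, Padic.norm_intCast_lt_one_iff]; exact hpa
  have nb : ‖b‖ = 1 := by
    rw [hb]
    refine le_antisymm (Padic.norm_int_le_one _) (not_lt.mp ?_)
    rw [Padic.norm_intCast_lt_one_iff]; exact hpb
  have ha0 : a ≠ 0 := by
    rw [ha]
    exact_mod_cast sub_ne_zero.mpr h12
  have hb0 : b ≠ 0 := by
    rintro rfl
    simp at nb
  have hysq : IsSquare (y ^ 2) := ⟨y, by ring⟩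
  -- if `d3` is a square in `ℚ_p` and `d1` has even valuation then the condition holds
  have fin1 : IsSquare (d3 : ℚ_[p]) → Even (d1 : ℚ_[p]).valuation → Co p e1 e2 e3 d1 d3 := by
    intro h3 h1
    have hn3 : ¬ (p : ℤ) ∣ d3 := by
      rw [sqf_val s3, not_not]
      exact val_even hd3 h3
    have hj := jac_of_sq hn3 h3
    refine ⟨hn3, ?_⟩
    split_ifs with hc
    · exact hj
    · rw [sqf_val s1]
      constructor
      · intro h; exact absurd h1 h
      · rintro ⟨-, h⟩
        rw [hj] at h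
        norm_num at h
  rcases lt_trichotomy ‖A‖ 1 with hlt | heq | hgt
  · -- `‖A‖ < 1`
    have hCb : IsSquare ((A + b) / b) := by
      rw [add_comm]
      exact add_small_div hp2 hb0 (by rw [nb]; exact hlt)
    have hbd : IsSquare (b * d3) := sq_swap hb0 hC0 hCb q3
    have hbv : b.valuation = 0 := val_zero_of_norm_one nb
    have hev3 : Even (d3 : ℚ_[p]).valuation := by
      have := val_even (mul_ne_zero hb0 hd3) hbd
      rwa [Padic.valuation_mul hb0 hd3, hbv, zero_add] at this
    have hn3 : ¬ (p : ℤ) ∣ d3 := by rw [sqf_val s3, not_not]; exact hev3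
    have hj : jacobiSym (e1 - e3) p * jacobiSym d3 p = 1 := by
      rw [← jacobiSym.mul_left]
      apply jac_of_sq
      · intro h
        rcases (Nat.prime_iff_prime_int.mp (Fact.out : p.Prime)).dvd_or_dvd h with h | h
        · exact hpb h
        · exact hn3 h
      · have : (((e1 - e3) * d3 : ℤ) : ℚ_[p]) = b * d3 := by rw [hb]; push_cast; ring
        rw [this]; exact hbd
    refine ⟨hn3, ?_⟩
    split_ifs with hc
    · rw [hc, one_mul] at hj; exact hj
    · have hj3 : jacobiSym d3 p = -1 := by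
        rcases Int.eq_one_or_neg_one_of_mul_eq_one hj with h | h
        · exact absurd h hc
        · rw [h] at hj; linarith
      have hbns : ¬ IsSquare b := by
        intro h
        apply hc
        apply jac_of_sq hpb
        rw [← hb]; exact h
      have hABb : IsSquare (A * (A + a) * b) := by
        have : A * (A + a) * b = y ^ 2 / ((A + b) / b) := by
          rw [hxy]; field_simp
        rw [this]
        exact hysq.div hCb
      have hpar : Even (A.valuation + a.valuation) := by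
        rcases lt_trichotomy ‖a‖ ‖A‖ with h | h | h
        · exfalso
          apply hbns
          have h1 := add_small_div hp2 hA0 h
          have : b = (A * (A + a) * b) / (((A + a) / A) * A ^ 2) := by field_simp
          rw [this]
          exact hABb.div (h1.mul ⟨A, by ring⟩)
        · have := val_eq_of_norm_eq ha0 hA0 h
          rw [this]; exact ⟨_, rfl⟩
        · have h1 := add_small_div hp2 ha0 h
          have h2 : IsSquare (A * a * b) := by
            have : A * a * b = (A * (A + a) * b) / ((a + A) / a) := by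
              have hB0' : a + A ≠ 0 := by rw [add_comm]; exact hB0
              field_simp
              ring
            rw [this]
            exact hABb.div h1
          have h3 := val_even (mul_ne_zero (mul_ne_zero hA0 ha0) hb0) h2
          rwa [Padic.valuation_mul (mul_ne_zero hA0 ha0) hb0, Padic.valuation_mul hA0 ha0, hbv,
            add_zero] at h3
      have hpar1 : Even (A.valuation + (d1 : ℚ_[p]).valuation) := by
        have := val_even (mul_ne_zero hA0 hd1) q1
        rwa [Padic.valuation_mul hA0 hd1] at this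
      have hva : a.valuation = (padicValInt p (e1 - e2) : ℤ) := by
        rw [ha, Padic.valuation_intCast]
      rw [sqf_val s1]
      have key : (¬ Even (d1 : ℚ_[p]).valuation) ↔ Odd (padicValInt p (e1 - e2)) := by
        rw [hva] at hpar
        rw [← Int.odd_coe_nat, Int.not_even_iff_odd]
        rw [Int.even_iff] at hpar hpar1
        rw [Int.odd_iff, Int.odd_iff]
        omega
      rw [key]
      exact ⟨fun h => ⟨h, hj3⟩, fun h => h.1⟩
  · -- `‖A‖ = 1`
    have hBA := add_small_div hp2 hA0 (by rw [heq]; exact na : ‖a‖ < ‖A‖)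
    have hC : IsSquare (A + b) := by
      have : A + b = y ^ 2 / (((A + a) / A) * A ^ 2) := by
        rw [hxy]; field_simp
      rw [this]
      exact hysq.div (hBA.mul ⟨A, by ring⟩)
    apply fin1
    · rw [mul_comm] at q3
      exact sq_cancel hC0 hC q3
    · have := val_even (mul_ne_zero hA0 hd1) q1
      rwa [Padic.valuation_mul hA0 hd1, val_zero_of_norm_one heq, zero_add] at this
  · -- `‖A‖ > 1`
    have hBA := add_small_div hp2 hA0 (na.trans hgt)
    have hCA := add_small_div hp2 hA0 (by rw [nb]; exact hgt : ‖b‖ < ‖A‖)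
    have hAs : IsSquare A := by
      have : A = y ^ 2 / (((A + a) / A) * ((A + b) / A) * A ^ 2) := by
        rw [hxy]; field_simp
      rw [this]
      exact hysq.div ((hBA.mul hCA).mul ⟨A, by ring⟩)
    have hC : IsSquare (A + b) := by
      have : A + b = ((A + b) / A) * A := by field_simp
      rw [this]
      exact hCA.mul hAs
    apply fin1
    · rw [mul_comm] at q3
      exact sq_cancel hC0 hC q3
    · rw [mul_comm] at q1
      exact val_even hd1 (sq_cancel hA0 hAs q1)

end Pool.Agent.K1H45.PS
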